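import Mathlib
import Pool.Agent.Lib.MP_bd1395_ag.Nonzero

/-!
# Odd cohomology classes obstruct the separation of homology classes by CohFTs

All definitions used in the statement are in `Pool/Agent/Lib/MP_bd1395_ag/Defs.lean`. The source of
the obstruction: exchanging the two factors of a separating gluing map produces a sign for a product
of two odd classes, while the contraction with `η⁻¹` is symmetric. So for an odd homology class `B`
on `Mbar_{g, S + 2}` the endomorphisms `⟨B, Ω(v, -, -)⟩` of `V` compose to zero, and their traces,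
the intersection numbers of the push-forward of `B` to `Mbar_{g+1, S}`, vanish.
-/

open Pool.Agent.Lib.MP_bd1395_ag

namespace Pool.Agent.Results.MP_bd1395_ag.OddClasses

theorem result (M : ModuliGroups) (hM : StandardProperties M) :
    -- push-forwards of odd classes under the non-separating gluing maps are invisible
    (∀ (g k : ℕ) (S : Type) [Finite S], Odd k → Stable g (Option (Option S)) →
      ∀ B : Module.Dual ℂ (M.H g (Option (Option S)) k), Invisible M (B ∘ₗ M.loop S g k)) ∧
    -- push-forwards of products of two odd classes under the separating gluing maps are invisible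
    (∀ (g₁ g₂ i j : ℕ) (S T : Type) [Finite S] [Finite T], Odd i → Odd j →
      Stable g₁ (Option S) → Stable g₂ (Option T) →
      ∀ (B₁ : Module.Dual ℂ (M.H g₁ (Option S) i)) (B₂ : Module.Dual ℂ (M.H g₂ (Option T) j)),
        Invisible M (prodForm B₁ B₂ ∘ₗ M.glue S T (rfl : g₁ + g₂ = g₁ + g₂)
          (rfl : i + j = i + j))) ∧
    -- if some odd cohomology group with at least two markings is nonzero, then there are nonzero
    -- invisible classes of odd and of even degree, and the answer to the question is negative
    (∀ (g k : ℕ) (S : Type) [Finite S] [Nonempty S], Odd k → Stable g (Option S) →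
      (∃ ω : M.H g (Option S) k, ω ≠ 0) →
      (∃ A : Module.Dual ℂ (M.H (g + 1) (S ⊕ Unit) (k + 2)), A ≠ 0 ∧ Invisible M A) ∧
      (∃ A : Module.Dual ℂ (M.H (g + g) (S ⊕ Option S) (k + (k + 2))), A ≠ 0 ∧ Invisible M A) ∧
      ¬ Question M) := by
  refine ⟨fun g k S _ hk hst B => invisible_loop hM hk hst B,
    fun g₁ g₂ i j S T _ _ hi hj h₁ h₂ B₁ B₂ => invisible_glue hM rfl rfl hi hj h₁ h₂ B₁ B₂, ?_⟩
  rintro g k S _ _ hk hst ⟨ω, hω⟩
  have h1 := exists_odd hM hk hst ω hω
  refine ⟨h1, exists_even hM hk hst ω hω, fun hQ => ?_⟩
  obtain ⟨A, hA, hinv⟩ := h1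
  apply hA
  refine hQ (g + 1) (S ⊕ Unit) (k + 2) ?_ A 0 ?_
  · unfold Stable at hst ⊢
    rw [Finite.card_option] at hst
    rw [Nat.card_sum]
    simp only [Nat.card_eq_fintype_card, Fintype.card_unit]
    omega
  · intro F v
    rw [hinv F v, LinearMap.zero_apply]

end Pool.Agent.Results.MP_bd1395_ag.OddClasses
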